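import Pool.Agent.Helper52.NF.St2

/-!
# Project NF, module LFP: pairs
-/

set_option autoImplicit false

namespace Pool.Agent.Helper80.NF

open Pool.Agent.Helper52.NF Finset

private theorem mem_PP {A B : Type} (I : A → B → Prop) (T : Finset A) (p : Finset A) :
    p ∈ PP I T ↔ (p ⊆ T ∧ p.card = 2) ∧ (∃ z, p ⊆ Dz I T z) ∧
      ∀ z, p ⊆ Dz I T z → (Dz I T z).card < 4 := by
  classical
  unfold PP
  rw [Finset.mem_filter, Finset.mem_powersetCard]

private theorem mem_P2 {A B : Type} (I : A → B → Prop) (T : Finset A) (p : Finset A) :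
    p ∈ P2 I T ↔ p ∈ PP I T ∧ ∀ z, p ⊆ Dz I T z → (Dz I T z).card ≠ 3 := by
  classical
  unfold P2
  rw [Finset.mem_filter]

theorem hLFP : StLFP := by
  classical
  intro A B _ I T
  -- the pairs of `PP` with a common node of degree three
  obtain ⟨Q, hQ⟩ : ∃ Q : Finset (Finset A), Q = PP I T \ P2 I T := ⟨_, rfl⟩
  have hsub : P2 I T ⊆ PP I T := by
    intro p hp
    exact ((mem_P2 I T p).1 hp).1
  have hcard : (PP I T).card = (P2 I T).card + Q.card := by
    rw [hQ, Finset.card_sdiff_of_subset hsub]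
    have := Finset.card_le_card hsub
    omega
  have hQm : ∀ p ∈ Q, p.card = 2 ∧ (∀ z, p ⊆ Dz I T z → (Dz I T z).card < 4) ∧
      ∃ z, p ⊆ Dz I T z ∧ (Dz I T z).card = 3 := by
    intro p hp
    rw [hQ, Finset.mem_sdiff] at hp
    obtain ⟨h1, h2⟩ := hp
    have h1' := (mem_PP I T p).1 h1
    refine ⟨h1'.1.2, h1'.2.2, ?_⟩
    by_contra hcon
    exact h2 ((mem_P2 I T p).2 ⟨h1, fun z hz h3 => hcon ⟨z, hz, h3⟩⟩)
  have hmain : 4 * Q.card ≤ ∑ z ∈ V3 I T, ∑ p ∈ (Dz I T z).powersetCard 2, (4 - 2 * sh I T p) := by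
    have h1 : ∀ z ∈ V3 I T, ∑ p ∈ Q.filter (fun p => p ⊆ Dz I T z), (4 - 2 * sh I T p) ≤
        ∑ p ∈ (Dz I T z).powersetCard 2, (4 - 2 * sh I T p) := by
      intro z _
      refine Finset.sum_le_sum_of_subset fun p hp => ?_
      rw [Finset.mem_filter] at hp
      rw [Finset.mem_powersetCard]
      exact ⟨hp.2, (hQm p hp.1).1⟩
    refine le_trans ?_ (Finset.sum_le_sum h1)
    have h2 : ∑ z ∈ V3 I T, ∑ p ∈ Q.filter (fun p => p ⊆ Dz I T z), (4 - 2 * sh I T p) =
        ∑ p ∈ Q, ∑ z ∈ (V3 I T).filter (fun z => p ⊆ Dz I T z), (4 - 2 * sh I T p) := by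
      simp only [Finset.sum_filter]
      rw [Finset.sum_comm]
    rw [h2]
    have h3 : 4 * Q.card = ∑ _p ∈ Q, 4 := by
      rw [Finset.sum_const, smul_eq_mul, mul_comm]
    rw [h3]
    refine Finset.sum_le_sum fun p hp => ?_
    rw [Finset.sum_const, smul_eq_mul]
    obtain ⟨hp1, hp2, z0, hz0, hz3⟩ := hQm p hp
    have hset : (Finset.univ.filter (fun z : B => 3 ≤ (Dz I T z).card ∧ p ⊆ Dz I T z)) =
        (V3 I T).filter (fun z => p ⊆ Dz I T z) := by
      ext z
      unfold V3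
      simp only [Finset.mem_filter, Finset.mem_univ, true_and]
      constructor
      · rintro ⟨h4, h5⟩
        have := hp2 z h5
        exact ⟨by omega, h5⟩
      · rintro ⟨h4, h5⟩
        exact ⟨by omega, h5⟩
    have hpos : 1 ≤ ((V3 I T).filter (fun z => p ⊆ Dz I T z)).card := by
      rw [Nat.one_le_iff_ne_zero, Finset.card_ne_zero]
      refine ⟨z0, ?_⟩
      unfold V3
      simp only [Finset.mem_filter, Finset.mem_univ, true_and]
      exact ⟨hz3, hz0⟩
    have hsh : sh I T p = if 2 ≤ ((V3 I T).filter (fun z => p ⊆ Dz I T z)).card then 1 else 0 := by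
      rw [← hset]
      rfl
    rw [hsh]
    split_ifs with h6
    · omega
    · omega
  rw [hcard]
  omega

end Pool.Agent.Helper80.NF
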